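import Pool.Agent.Helper85.ZMY.Trw
import Pool.Agent.Helper70.CPW.Frw
import Pool.Agent.Helper18.SRT.Mx

/-! [NUMT]: exact numbers of all prefixes from the total number and frames; numbers of a zoom in a frame. -/

set_option autoImplicit false

namespace Pool.Agent.Helper5.ZMY

open Finset Filter Topology Matrix Pool.Agent.Helper69.RK Pool.Agent.Helper31.EC Pool.Agent.Helper31.EC.Sp
open Pool.Agent.Helper40.EL Pool.Agent.Helper89.LX Pool.Agent.Helper3.LF Pool.Agent.Helper84.MT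
open Pool.Agent.Helper36.AM (Frm)
open Pool.Agent.Helper85.ZMY (exists_unit exists_deg)
open Pool.Agent.Helper7.RD (FD0 volCO volCO_le_M pR upz KLb_iff volP_self volP_cnA pfx_self)
open Pool.Agent.Helper7.GZ (ZU Rows)
open Pool.Agent.Helper89.RAD (cnA)
open Pool.Agent.Helper70.CPW (wsm_cast)
open Pool.Agent.Helper29.MX

noncomputable section

variable {S : Sp} {M : ℕ} {E : ℕ → ℕ} {ι : Type}

/-- exact numbers of all prefixes from the exact total number and frames -/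
theorem num_of [Finite ι] {s : MSys S M E ι} {w : Fin M → ℝ} (hw : ∀ i, 1 ≤ w i) (hm : Monotone w)
    (hT : Tot w s (rbot S)) (hC : ∀ c : ℝ, 0 ≤ c → (∀ i, w i * c < 1) →
      ∃ l : Lab S, TLb s c l ∧ Nonempty (Frm s.Q l fun j => w j * c)) : Num w s (rbot S) := by
  intro c hc hwc j hj
  rcases hc.eq_or_lt with h0 | h0
  · subst h0
    rw [mul_zero, sub_zero]
    refine Pool.Agent.Helper18.SRT.volP_stb ?_ hj
    rw [hT 0 le_rfl hwc, mul_zero, sub_zero]
  · obtain ⟨l, hl, ⟨f⟩⟩ := hC c hc hwc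
    have h1 := Pool.Agent.Helper18.SRT.volP_srtW (j := j) h0 ((tlb_iff s c l).mpr hl) hw (fun i => (hwc i).le) f
      (le_of_eq (hT c hc hwc).symm) (Equiv.refl _) hm hj
    rw [Pool.Agent.Helper18.SRT.volP_scrd] at h1
    rw [← wsm_cast w hj]
    exact h1

/-- the numbers of the prefixes are at most the numbers of a frame -/
theorem volP_le_frm [Finite ι] {s : MSys S M E ι} {w : Fin M → ℝ} (hw : ∀ j, 1 ≤ w j) {y : ℝ} (hy : 0 ≤ y) {L : Lab S}
    (hL : TLb s y L) (g : Frm s.Q L fun j => w j * y) (hlt : ∀ j, w j * y < 1) {m : ℕ} (hm : m ≤ M) :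
    volP s (rbot S) y hm ≤ m - wsm w m * y := by
  obtain ⟨e, he, he1, h1⟩ := exists_unit w hlt
  obtain ⟨κ, hκ⟩ := exists_deg hw hy g
  have hF : ∃ F : FD0 s.Q L (fun j => w j * y), F.f = g ∧ F.c = 0 ∧ F.e = e := ⟨⟨g, 0, e, le_rfl, he, by linarith,
    fun j => mul_nonneg (zero_le_one.trans (hw j)) hy, h1, κ, hκ⟩, rfl, rfl, rfl⟩
  obtain ⟨F, hf, hc, hFe⟩ := hF
  subst hf
  subst hFe
  have hK := KLb_iff.mp ((tlb_iff s y L).mpr hL)
  have hX : Rows.IsX F.zu F.rows (F.f.X.chg L.V F.e F.he) := F.isX_of ⟨fun _ => 0, S.Sub_const le_rfl,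
    Eventually.of_forall fun k ω _ j => by
      show |F.f.X.v k ω j - F.f.X.v k ω j| ≤ _
      rw [sub_self, abs_zero, zero_mul]⟩
  have h2 := F.volP_le (A := cnA s (pR (rbot S)) y) (B := fun i => upz F.zu (cnA s (pR (rbot S)) y i)) hK.1
    (fun i => ⟨i, PLe.refl _⟩) hK.2 hX hm
  have h3 : volCO (LC.kz (upz F.zu (pR (rbot S)))) (fun i => upz F.zu (cnA s (pR (rbot S)) y i))
      (pfx (S := F.zu.sp) (VV.chg L.V F.e F.he F.f.X) hm) ≤ m := volCO_le_M
  rw [volP_cnA]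
  have h4 : ∑ i : Fin m, w (Fin.castLE hm i) * y = wsm w m * y := by
    rw [← Finset.sum_mul, wsm_cast w hm]
  rw [h4] at h2
  have h5 := mul_nonneg F.he.le (sub_nonneg.2 h3)
  linarith

end

end Pool.Agent.Helper5.ZMY
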